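import Pool.Agent.Q263.HS.Geo

/-! # Project HS (helper263), job ANG (helper176) -/

set_option autoImplicit false

open scoped Manifold ContDiff Topology
open Set Filter Pool.Agent.H721R2 Q263.HR

namespace Q263.HS

universe u v w

section

variable {E : Type u} [NormedAddCommGroup E] [NormedSpace ℝ E] [FiniteDimensional ℝ E]
  {M : Type v} [MetricSpace M] [CompactSpace M] [ChartedSpace E M] [IsManifold 𝓘(ℝ, E) 1 M]
  {F : Type w} [NormedAddCommGroup F] [NormedSpace ℝ F]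
  {W : Type} [NormedAddCommGroup W] [NormedSpace ℝ W]

/-- one half of the estimate -/
theorem TH.half {e : M → F} {f : M ≃ₜ M} {Φ : W → M → M} {Λ : Set M}
    {Es Eu : M → Submodule ℝ E} {C a : ℝ} (h : TH e f Φ Λ Es Eu C a) (n : ℕ) {B : ℝ}
    (hBv : ∀ x v, ‖dm E e (f^[n] x) (dg E (f^[n]) x v)‖ ≤ B * ‖dm E e x v‖) (x : M) (hx : x ∈ Λ)
    (s : E) (hs : s ∈ Es x) (u : E) (hu : u ∈ Eu x) (t : W) :
    ‖dm E e x u‖ ≤ C * a ^ n * (B * ‖dm E e x (s + u + orb E Φ x t)‖ +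
      C * a ^ n * ‖dm E e x s‖ + C ^ 2 * ‖dm E e x (orb E Φ x t)‖) := by
  have hC := h.C_pos
  have ha := h.a_pos
  have hq : 0 ≤ C * a ^ n := by positivity
  obtain ⟨Ds, hDs⟩ : ∃ D, D = dm E e (f^[n] x) (dg E (f^[n]) x s) := ⟨_, rfl⟩
  obtain ⟨Du, hDu⟩ : ∃ D, D = dm E e (f^[n] x) (dg E (f^[n]) x u) := ⟨_, rfl⟩
  obtain ⟨Dr, hDr⟩ : ∃ D, D = dm E e (f^[n] x) (dg E (f^[n]) x (orb E Φ x t)) := ⟨_, rfl⟩
  have h1 : ‖Ds‖ ≤ C * a ^ n * ‖dm E e x s‖ := by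
    rw [hDs]
    exact h.hS n x hx s hs
  have h2 : ‖dm E e x u‖ ≤ C * a ^ n * ‖Du‖ := by
    have h3 := h.hU' n (f^[n] x) (h.inv x hx n) _ (h.mapU n x hx u hu)
    rw [dg_inv (f^[n]) (f.symm^[n]) (iter_smooth f h.smooth n) (iter_smooth _ h.smooth' n)
      (iter_left f n), iter_left] at h3
    rw [hDu]
    exact h3
  have h3 : ‖Ds + Du + Dr‖ ≤ B * ‖dm E e x (s + u + orb E Φ x t)‖ := by
    have := hBv x (s + u + orb E Φ x t)
    rw [hDs, hDu, hDr]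
    rwa [map_add, map_add, map_add, map_add] at this
  have h4 : ‖Dr‖ ≤ C ^ 2 * ‖dm E e x (orb E Φ x t)‖ := by
    rw [hDr, h.eqv n x t]
    refine (h.up (f^[n] x) t).trans ?_
    have := mul_le_mul_of_nonneg_left (h.low x hx t) (by linarith : 0 ≤ C)
    refine this.trans (le_of_eq ?_)
    ring
  have h5 : ‖Du‖ ≤ ‖Ds + Du + Dr‖ + ‖Ds‖ + ‖Dr‖ := by
    have e1 : Du = (Ds + Du + Dr) - Ds - Dr := by abel
    have := (norm_sub_le ((Ds + Du + Dr) - Ds) Dr).trans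
      (add_le_add_left (norm_sub_le (Ds + Du + Dr) Ds) ‖Dr‖)
    rwa [← e1] at this
  refine h2.trans (mul_le_mul_of_nonneg_left ?_ hq)
  linarith

end

/-- JOB HS-ANG. -/
theorem ang : S_ANG.{u, v, w} := by
  intro E _ _ _ M _ _ _ hM F _ _ e he W _ _ Φ f Λ Es Eu C a h
  have : IsManifold 𝓘(ℝ, E) 1 M := IsManifold.of_le (n := ∞) (by simp)
  have he1 : ContMDiff 𝓘(ℝ, E) 𝓘(ℝ, F) 1 e := he.smooth.of_le (by simp)
  have hinj := he.inj
  have hC := h.C_pos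
  have ha := h.a_pos
  have ht1 : Tendsto (fun n : ℕ => C * a ^ n) atTop (𝓝 0) := by
    have := (tendsto_pow_atTop_nhds_zero_of_lt_one h.a_pos.le h.a_lt).const_mul C
    simpa using this
  obtain ⟨n, hn1⟩ := ((tendsto_order.mp ht1).2 (1 / (16 * C ^ 2)) (by positivity)).exists
  obtain ⟨B, hB, hBv⟩ := global_bound e he1 hinj (f^[n]) (iter_smooth f h.smooth n)
  obtain ⟨B', hB', hBv'⟩ := global_bound e he1 hinj (f.symm^[n]) (iter_smooth f.symm h.smooth' n)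
  obtain ⟨q, hq⟩ : ∃ q : ℝ, q = C * a ^ n := ⟨_, rfl⟩
  rw [← hq] at hn1
  have hq0 : 0 ≤ q := by rw [hq]; positivity
  have hq1 : q * C ^ 2 ≤ 1 / 16 := by
    have h1 := mul_le_mul_of_nonneg_right hn1.le (by positivity : 0 ≤ C ^ 2)
    have h2 : 1 / (16 * C ^ 2) * C ^ 2 = 1 / 16 := by
      have : C ≠ 0 := by linarith
      field_simp
    linarith
  have hq2 : q ≤ 1 / 16 := by
    have : 1 ≤ C ^ 2 := one_le_pow₀ hC
    nlinarith
  have hCB : 1 * (B + B' + 2) ≤ C * (B + B' + 2) := mul_le_mul_of_nonneg_right hC (by linarith)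
  refine ⟨C * (B + B' + 2), by linarith, fun x hx s hs u hu t => ?_⟩
  have k1 := h.half n hBv x hx s hs u hu t
  have k2 := h.symm.half n hBv' x hx u hu s hs t
  rw [add_comm u s] at k2
  obtain ⟨V, hV⟩ : ∃ V, V = ‖dm E e x (s + u + orb E Φ x t)‖ := ⟨_, rfl⟩
  obtain ⟨S, hS⟩ : ∃ S, S = ‖dm E e x s‖ := ⟨_, rfl⟩
  obtain ⟨U, hU⟩ : ∃ U, U = ‖dm E e x u‖ := ⟨_, rfl⟩
  obtain ⟨P, hP⟩ : ∃ P, P = ‖dm E e x (orb E Φ x t)‖ := ⟨_, rfl⟩
  have k3 : P ≤ V + S + U := by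
    rw [hP, hV, hS, hU]
    have e1 : dm E e x (orb E Φ x t) =
        dm E e x (s + u + orb E Φ x t) - dm E e x s - dm E e x u := by
      rw [← map_sub, ← map_sub]
      congr 1
      abel
    rw [e1]
    exact (norm_sub_le _ _).trans (add_le_add_left (norm_sub_le _ _) _)
  have k4 := h.low x hx t
  rw [← hq, ← hV, ← hS, ← hU, ← hP] at k1 k2
  rw [← hP] at k4
  rw [← hV, ← hS, ← hU]
  have hV0 : 0 ≤ V := by rw [hV]; exact norm_nonneg _
  have hS0 : 0 ≤ S := by rw [hS]; exact norm_nonneg _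
  have hU0 : 0 ≤ U := by rw [hU]; exact norm_nonneg _
  have hP0 : 0 ≤ P := by rw [hP]; exact norm_nonneg _
  -- the sum
  have m1 : q * (B * V) ≤ 1 / 16 * (B * V) := mul_le_mul_of_nonneg_right hq2 (by positivity)
  have m2 : q * (B' * V) ≤ 1 / 16 * (B' * V) := mul_le_mul_of_nonneg_right hq2 (by positivity)
  have m3 : q * (q * S) ≤ 1 / 16 * (1 / 16 * S) :=
    mul_le_mul hq2 (mul_le_mul_of_nonneg_right hq2 hS0) (by positivity) (by norm_num)
  have m4 : q * (q * U) ≤ 1 / 16 * (1 / 16 * U) :=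
    mul_le_mul hq2 (mul_le_mul_of_nonneg_right hq2 hU0) (by positivity) (by norm_num)
  have m5 : q * (C ^ 2 * P) ≤ 1 / 16 * P := by
    rw [← mul_assoc]
    exact mul_le_mul_of_nonneg_right hq1 hP0
  have hBV : 0 ≤ B * V := by positivity
  have hBV' : 0 ≤ B' * V := by positivity
  have k5 : S + U ≤ (B + B' + 1) * V := by nlinarith
  have k6 : (B + B' + 2) * V ≤ C * (B + B' + 2) * V := by
    rw [one_mul] at hCB
    exact mul_le_mul_of_nonneg_right hCB hV0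
  refine ⟨by linarith, by linarith, k4.trans ?_⟩
  have k7 : C * P ≤ C * ((B + B' + 2) * V) := mul_le_mul_of_nonneg_left (by linarith) (by linarith)
  rw [mul_assoc]
  exact k7

end Q263.HS
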